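import Mathlib

set_option autoImplicit false

namespace Pool.Agent.MP_c98bf6_al.H38

variable {K : Type} [Field K] {B : Type} [Ring B] [Algebra K B] {H : Type} [Group H]

/-- The span of the elements `ρ l - 1`, `l ∈ L`. -/
def om (K : Type) [Field K] {B : Type} [Ring B] [Algebra K B] {H : Type} [Group H]
    (ρ : H →* B) (L : Subgroup H) : Submodule K B :=
  Submodule.span K {z | ∃ l ∈ L, z = ρ l - 1}

theorem mem_om (ρ : H →* B) {L : Subgroup H} {l : H} (hl : l ∈ L) : ρ l - 1 ∈ om K ρ L :=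
  Submodule.subset_span ⟨l, hl, rfl⟩

theorem om_le (ρ : H →* B) {L : Subgroup H} {D : Submodule K B}
    (h : ∀ l ∈ L, ρ l - 1 ∈ D) : om K ρ L ≤ D :=
  Submodule.span_le.2 (by rintro _ ⟨l, hl, rfl⟩; exact h l hl)

theorem om_left (ρ : H →* B) {L : Subgroup H} {l : H} (hl : l ∈ L) {z : B} (hz : z ∈ om K ρ L) :
    ρ l * z ∈ om K ρ L := by
  induction hz using Submodule.span_induction with
  | mem z hz =>
    obtain ⟨m, hm, rfl⟩ := hz
    have e : ρ l * (ρ m - 1) = (ρ (l * m) - 1) - (ρ l - 1) := by rw [map_mul]; noncomm_ring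
    rw [e]; exact sub_mem (mem_om ρ (L.mul_mem hl hm)) (mem_om ρ hl)
  | zero => simp
  | add a b _ _ ha hb => rw [mul_add]; exact add_mem ha hb
  | smul c a _ ha => rw [mul_smul_comm]; exact Submodule.smul_mem _ _ ha

theorem om_right (ρ : H →* B) {L : Subgroup H} {l : H} (hl : l ∈ L) {z : B} (hz : z ∈ om K ρ L) :
    z * ρ l ∈ om K ρ L := by
  induction hz using Submodule.span_induction with
  | mem z hz =>
    obtain ⟨m, hm, rfl⟩ := hz
    have e : (ρ m - 1) * ρ l = (ρ (m * l) - 1) - (ρ l - 1) := by rw [map_mul]; noncomm_ring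
    rw [e]; exact sub_mem (mem_om ρ (L.mul_mem hm hl)) (mem_om ρ hl)
  | zero => simp
  | add a b _ _ ha hb => rw [add_mul]; exact add_mem ha hb
  | smul c a _ ha => rw [smul_mul_assoc]; exact Submodule.smul_mem _ _ ha

theorem om_mul (ρ : H →* B) {L : Subgroup H} {a b : B} (ha : a ∈ om K ρ L) (hb : b ∈ om K ρ L) :
    a * b ∈ om K ρ L := by
  induction ha using Submodule.span_induction with
  | mem z hz =>
    obtain ⟨m, hm, rfl⟩ := hz
    rw [sub_mul, one_mul]; exact sub_mem (om_left ρ hm hb) hb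
  | zero => simp
  | add a c _ _ ha hc => rw [add_mul]; exact add_mem ha hc
  | smul c a _ ha => rw [smul_mul_assoc]; exact Submodule.smul_mem _ _ ha

theorem omp_left (ρ : H →* B) {L : Subgroup H} {l : H} (hl : l ∈ L) (k : ℕ) {z : B}
    (hz : z ∈ om K ρ L ^ (k + 1)) : ρ l * z ∈ om K ρ L ^ (k + 1) := by
  rw [pow_succ'] at hz ⊢
  refine Submodule.mul_induction_on hz (fun a ha b hb => ?_) (fun a b ha hb => ?_)
  · rw [← mul_assoc]; exact Submodule.mul_mem_mul (om_left ρ hl ha) hb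
  · rw [mul_add]; exact add_mem ha hb

theorem omp_right (ρ : H →* B) {L : Subgroup H} {l : H} (hl : l ∈ L) (k : ℕ) {z : B}
    (hz : z ∈ om K ρ L ^ (k + 1)) : z * ρ l ∈ om K ρ L ^ (k + 1) := by
  rw [pow_succ] at hz ⊢
  refine Submodule.mul_induction_on hz (fun a ha b hb => ?_) (fun a b ha hb => ?_)
  · rw [mul_assoc]; exact Submodule.mul_mem_mul ha (om_right ρ hl hb)
  · rw [add_mul]; exact add_mem ha hb

/-- The dimension subgroups of `L`. -/
def X (K : Type) [Field K] {B : Type} [Ring B] [Algebra K B] {H : Type} [Group H]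
    (ρ : H →* B) (L : Subgroup H) (k : ℕ) : Subgroup H where
  carrier := {l | l ∈ L ∧ ρ l - 1 ∈ om K ρ L ^ (k + 1)}
  one_mem' := ⟨L.one_mem, by simp⟩
  mul_mem' := by
    rintro a b ⟨ha, ha'⟩ ⟨hb, hb'⟩
    refine ⟨L.mul_mem ha hb, ?_⟩
    have e : ρ (a * b) - 1 = ρ a * (ρ b - 1) + (ρ a - 1) := by rw [map_mul]; noncomm_ring
    rw [e]; exact add_mem (omp_left ρ ha k hb') ha'
  inv_mem' := by
    rintro a ⟨ha, ha'⟩
    refine ⟨L.inv_mem ha, ?_⟩
    have e : ρ a⁻¹ - 1 = -(ρ a⁻¹ * (ρ a - 1)) := by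
      rw [mul_sub, ← map_mul, inv_mul_cancel, map_one]; noncomm_ring
    rw [e]; exact neg_mem (omp_left ρ (L.inv_mem ha) k ha')

theorem X_zero (ρ : H →* B) {L : Subgroup H} {l : H} (hl : l ∈ L) : l ∈ X K ρ L 0 :=
  ⟨hl, by simpa using mem_om ρ hl⟩

theorem X_conj (ρ : H →* B) {L : Subgroup H} {k : ℕ} {l x : H} (hl : l ∈ L)
    (hx : x ∈ X K ρ L k) : l * x * l⁻¹ ∈ X K ρ L k := by
  refine ⟨L.mul_mem (L.mul_mem hl hx.1) (L.inv_mem hl), ?_⟩
  have e : ρ (l * x * l⁻¹) - 1 = ρ l * (ρ x - 1) * ρ l⁻¹ := by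
    rw [mul_sub, sub_mul, mul_one, ← map_mul ρ l l⁻¹, mul_inv_cancel, map_one, map_mul, map_mul]
  rw [e]; exact omp_right ρ (L.inv_mem hl) k (omp_left ρ hl k hx.2)

theorem X_comm (ρ : H →* B) {L : Subgroup H} {k : ℕ} {l x : H} (hl : l ∈ L)
    (hx : x ∈ X K ρ L k) : x * l * x⁻¹ * l⁻¹ ∈ X K ρ L (k + 1) := by
  refine ⟨L.mul_mem (L.mul_mem (L.mul_mem hx.1 hl) (L.inv_mem hx.1)) (L.inv_mem hl), ?_⟩
  have e : ρ (x * l * x⁻¹ * l⁻¹) - 1 =
      ((ρ x - 1) * (ρ l - 1) - (ρ l - 1) * (ρ x - 1)) * ρ (x⁻¹ * l⁻¹) := by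
    have e1 : (ρ x - 1) * (ρ l - 1) - (ρ l - 1) * (ρ x - 1) = ρ (x * l) - ρ (l * x) := by
      rw [map_mul, map_mul]; noncomm_ring
    rw [e1, sub_mul, ← map_mul, ← map_mul]
    congr 1
    · congr 1; group
    · rw [← map_one ρ]; congr 1; group
  rw [e]
  refine omp_right ρ (L.mul_mem (L.inv_mem hx.1) (L.inv_mem hl)) _ (sub_mem ?_ ?_)
  · rw [pow_succ]; exact Submodule.mul_mem_mul hx.2 (mem_om ρ hl)
  · rw [pow_succ']; exact Submodule.mul_mem_mul (mem_om ρ hl) hx.2

theorem X_top (ρ : H →* B) {L : Subgroup H} {k : ℕ} (h : om K ρ L ^ (k + 1) = ⊥) {x : H}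
    (hx : x ∈ X K ρ L k) : ρ x = 1 := by
  have := hx.2
  rw [h, Submodule.mem_bot, sub_eq_zero] at this
  exact this

/-- Elements whose iterated commutators with `F` reach the kernel in `k` steps. -/
def Y (ρ : H →* B) (F : Set H) : ℕ → Set H
  | 0 => {h | ρ h = 1}
  | k + 1 => {h | ∀ f ∈ F, h * f * h⁻¹ * f⁻¹ ∈ Y ρ F k}

theorem Y_finite (ρ : H →* B) (F : Set H) (hF : F.Finite) (hk : {h | ρ h = 1}.Finite)
    (hC : {h | ∀ f ∈ F, h * f = f * h}.Finite) (k : ℕ) : (Y ρ F k).Finite := by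
  induction k with
  | zero => exact hk
  | succ k ih =>
    have : Finite F := hF
    refine Set.Finite.of_finite_fibers (fun h (f : F) => h * f * h⁻¹ * (f : H)⁻¹) ?_ ?_
    · refine (Set.Finite.pi' (fun _ : F => ih)).subset ?_
      rintro _ ⟨h, hh, rfl⟩ f
      exact hh f f.2
    · rintro _ ⟨h0, -, rfl⟩
      refine (hC.image (fun c => h0 * c)).subset ?_
      rintro h ⟨-, hh⟩
      refine ⟨h0⁻¹ * h, fun f hf => ?_, by simp⟩
      have e := congrFun hh ⟨f, hf⟩
      simp only [mul_left_inj] at e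
      calc h0⁻¹ * h * f = h0⁻¹ * (h * f * h⁻¹) * h := by group
        _ = h0⁻¹ * (h0 * f * h0⁻¹) * h := by rw [e]
        _ = f * (h0⁻¹ * h) := by group

theorem mem_Y (ρ : H →* B) {F : Set H} {L : Subgroup H} (hF : ∀ f ∈ F, f ∈ L) (j : ℕ) :
    ∀ k, om K ρ L ^ (k + j + 1) = ⊥ → ∀ x ∈ X K ρ L k, x ∈ Y ρ F j := by
  induction j with
  | zero => exact fun k h x hx => X_top ρ h hx
  | succ j ih =>
    intro k h x hx f hf
    exact ih (k + 1) (by rw [← h]; congr 1; ring) _ (X_comm ρ (hF f hf) hx)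

/-- A subgroup of a unipotent group with full normal closure is everything. -/
theorem full_of_normal (ρ : H →* B) {T L : Subgroup H} (hT : T ≤ L) {n : ℕ}
    (hn : om K ρ L ^ (n + 1) = ⊥)
    (hN : ∀ M : Subgroup H, T ≤ M → (∀ l ∈ L, ∀ m ∈ M, l * m * l⁻¹ ∈ M) → L ≤ M) :
    ∀ l ∈ L, ∃ t ∈ T, ρ l = ρ t := by
  have key : ∀ k, ∀ l ∈ L, ∃ t ∈ T, t⁻¹ * l ∈ X K ρ L k := by
    intro k
    induction k with
    | zero => exact fun l hl => ⟨1, T.one_mem, X_zero ρ (by simpa using hl)⟩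
    | succ k ih =>
      let M : Subgroup H :=
        { carrier := {m | ∃ t ∈ T, t⁻¹ * m ∈ X K ρ L (k + 1)}
          one_mem' := ⟨1, T.one_mem, by simp⟩
          mul_mem' := by
            rintro a b ⟨t, ht, ha⟩ ⟨u, hu, hb⟩
            refine ⟨t * u, T.mul_mem ht hu, ?_⟩
            have := (X K ρ L (k + 1)).mul_mem (X_conj ρ (L.inv_mem (hT hu)) ha) hb
            convert this using 1; group
          inv_mem' := by
            rintro a ⟨t, ht, ha⟩
            refine ⟨t⁻¹, T.inv_mem ht, ?_⟩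
            have := X_conj ρ (hT ht) ((X K ρ L (k + 1)).inv_mem ha)
            convert this using 1; group }
      refine hN M (fun t ht => ⟨t, ht, by simp⟩) ?_
      rintro l hl m ⟨t, ht, hm⟩
      obtain ⟨u, hu, hx⟩ := ih l hl
      refine ⟨u * t * u⁻¹, T.mul_mem (T.mul_mem hu ht) (T.inv_mem hu), ?_⟩
      have := (X K ρ L (k + 1)).mul_mem
        (X_conj ρ (L.mul_mem (hT hu) (L.inv_mem (hT ht))) (X_comm ρ (hT ht) hx)) (X_conj ρ hl hm)
      convert this using 1; group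
  intro l hl
  obtain ⟨t, ht, h⟩ := key n l hl
  refine ⟨t, ht, ?_⟩
  have := X_top ρ hn h
  calc ρ l = ρ (t * (t⁻¹ * l)) := by simp
    _ = ρ t := by rw [map_mul, this, mul_one]

theorem idem_bot (D P : Submodule K B) (hfin : FiniteDimensional K D) (hPD : P ≤ D)
    (hPP : P * P = P) (hnil : ∀ a ∈ P, IsNilpotent a) : P = ⊥ := by
  have key : ∀ d, ∀ M : Submodule K B, M ≤ D → P * M ≤ M → Module.finrank K M = d →
      P * M = ⊥ := by
    intro d
    induction d using Nat.strong_induction_on with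
    | _ d ih =>
    intro M hM hPM hd
    have hf : FiniteDimensional K M := Submodule.finiteDimensional_of_le hM
    refine eq_bot_iff.2 (Submodule.mul_le.2 fun a ha m hm => ?_)
    have hle : P * Submodule.span K {m} ≤ M :=
      le_trans (Submodule.mul_le.2 fun a ha b hb => Submodule.mul_mem_mul ha
        ((Submodule.span_singleton_le_iff_mem m M).2 hm hb)) hPM
    have hass : P * (P * Submodule.span K {m}) = P * Submodule.span K {m} := by
      rw [← mul_assoc, hPP]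
    rcases hle.lt_or_eq with h | h
    · have := ih _ (hd ▸ Submodule.finrank_lt_finrank_of_lt h) _ (hle.trans hM) hass.le rfl
      rw [← this, hass]
      exact Submodule.mul_mem_mul ha (Submodule.mem_span_singleton_self m)
    · have hm1 : m ∈ P * Submodule.span K {m} := by rw [h]; exact hm
      obtain ⟨c, hc, hcm⟩ := Submodule.mem_mul_span_singleton.1 hm1
      obtain ⟨r, hr⟩ := hnil c hc
      have hpow : ∀ i, c ^ i * m = m := fun i => by
        induction i with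
        | zero => simp
        | succ i ih => rw [pow_succ, mul_assoc, hcm, ih]
      have hm' : m = 0 := by rw [← hpow r, hr, zero_mul]
      simp [hm']
  rw [← hPP]
  exact key _ P hPD hPP.le rfl

/-- A finite dimensional nil algebra is nilpotent. -/
theorem nilp_of_nil (D : Submodule K B) (hfin : FiniteDimensional K D)
    (hmul : ∀ a ∈ D, ∀ b ∈ D, a * b ∈ D) (hnil : ∀ a ∈ D, IsNilpotent a) :
    ∃ n, D ^ (n + 1) = ⊥ := by
  have hD1 : ∀ k, D ^ (k + 1) ≤ D := fun k => by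
    induction k with
    | zero => simp
    | succ k ih =>
      rw [pow_succ]; exact Submodule.mul_le.2 fun a ha b hb => hmul a (ih ha) b hb
  have hanti : ∀ k j, D ^ (k + 1 + j) ≤ D ^ (k + 1) := fun k j => by
    cases j with
    | zero => simp
    | succ j =>
      rw [show k + 1 + (j + 1) = k + (j + 1 + 1) by ring, pow_add, pow_succ D k]
      exact Submodule.mul_le.2 fun a ha b hb => Submodule.mul_mem_mul ha (hD1 _ hb)
  obtain ⟨k, hk⟩ : ∃ k, ∀ j, Module.finrank K (D ^ (k + 1) : Submodule K B) ≤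
      Module.finrank K (D ^ (j + 1) : Submodule K B) := by
    obtain ⟨k, hk⟩ := (measure fun k =>
      Module.finrank K (D ^ (k + 1) : Submodule K B)).wf.has_min Set.univ ⟨0, trivial⟩
    exact ⟨k, fun j => not_lt.1 (hk.2 j trivial)⟩
  refine ⟨k, idem_bot D _ hfin (hD1 k) ?_ fun a ha => hnil a (hD1 k ha)⟩
  have : FiniteDimensional K (D ^ (k + 1) : Submodule K B) :=
    Submodule.finiteDimensional_of_le (hD1 k)
  rw [← pow_add]
  exact Submodule.eq_of_le_of_finrank_le (hanti _ _) (hk (k + 1 + k))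

theorem om_nilp (ρ : H →* B) (L : Subgroup H) (hL : (L : Set H).Finite)
    (hnil : ∀ a ∈ om K ρ L, IsNilpotent a) : ∃ n, om K ρ L ^ (n + 1) = ⊥ := by
  refine nilp_of_nil _ ?_ (fun a ha b hb => om_mul ρ ha hb) hnil
  refine FiniteDimensional.span_of_finite K ((hL.image fun l => ρ l - 1).subset ?_)
  rintro _ ⟨l, hl, rfl⟩
  exact ⟨l, hl, rfl⟩

end Pool.Agent.MP_c98bf6_al.H38
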