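import Pool.Agent.MP_c98bf6_al.H38.Main

set_option autoImplicit false

namespace Pool.Agent.MP_c98bf6_al.H38

variable {K : Type} [Field K] {B : Type} [Ring B] [Algebra K B] {H : Type} [Group H]

theorem golod_mem {ι : Type} (y : ι → B)
    (hnil : ∀ a ∈ NonUnitalAlgebra.adjoin K (Set.range y), IsNilpotent a) {u : Bˣ}
    (hu : u ∈ Subgroup.closure {u : Bˣ | ∃ i, (u : B) = 1 + y i}) :
    (u : B) - 1 ∈ NonUnitalAlgebra.adjoin K (Set.range y) := by
  induction hu using Subgroup.closure_induction with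
  | mem u hu =>
    obtain ⟨i, hi⟩ := hu
    rw [hi, add_sub_cancel_left]; exact NonUnitalAlgebra.subset_adjoin K ⟨i, rfl⟩
  | one => simp
  | mul u v _ _ hu hv =>
    have e : ((u * v : Bˣ) : B) - 1 = ((u : B) - 1) * ((v : B) - 1) + ((u : B) - 1) + ((v : B) - 1) := by
      rw [Units.val_mul]; noncomm_ring
    rw [e]; exact add_mem (add_mem (mul_mem hu hv) hu) hv
  | inv u _ hu =>
    obtain ⟨n, hn⟩ := hnil _ hu
    have key : ∀ k, ((u⁻¹ : Bˣ) : B) - 1 - ((u⁻¹ : Bˣ) : B) * (1 - (u : B)) ^ (k + 1) ∈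
        NonUnitalAlgebra.adjoin K (Set.range y) ∧
        (1 - (u : B)) ^ (k + 1) ∈ NonUnitalAlgebra.adjoin K (Set.range y) := fun k => by
      have h1 : (1 - (u : B)) ∈ NonUnitalAlgebra.adjoin K (Set.range y) := by
        simpa using neg_mem hu
      induction k with
      | zero => exact ⟨by simp [mul_sub], by simpa using h1⟩
      | succ k ih =>
        refine ⟨?_, by rw [pow_succ]; exact mul_mem ih.2 h1⟩
        have e : ((u⁻¹ : Bˣ) : B) * (1 - (u : B)) ^ (k + 1 + 1) =
            ((u⁻¹ : Bˣ) : B) * (1 - (u : B)) ^ (k + 1) - (1 - (u : B)) ^ (k + 1) := by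
          rw [pow_succ' _ (k + 1), ← mul_assoc, mul_sub, mul_one, Units.inv_mul, sub_mul, one_mul]
        rw [e]
        convert add_mem ih.1 ih.2 using 1
        abel
    have e : (1 - (u : B)) ^ (n + 1) = 0 := by
      rw [← neg_sub, neg_pow, pow_succ ((u : B) - 1), hn]; simp
    simpa [e] using (key n).1

theorem golod_infinite {ι : Type} (y : ι → B)
    (hnil : ∀ a ∈ NonUnitalAlgebra.adjoin K (Set.range y), IsNilpotent a)
    (hnn : ∀ n : ℕ, ∃ w : Fin n → ι, (List.ofFn (fun i => y (w i))).prod ≠ 0) :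
    ((Subgroup.closure {u : Bˣ | ∃ i, (u : B) = 1 + y i} : Subgroup Bˣ) : Set Bˣ).Infinite := by
  intro hfin
  obtain ⟨n, hn⟩ := om_nilp (K := K) (Units.coeHom B) _ hfin fun a ha => hnil a
    (om_le (D := (NonUnitalAlgebra.adjoin K (Set.range y)).toSubmodule) _
      (fun l hl => golod_mem y hnil hl) ha)
  obtain ⟨w, hw⟩ := hnn (n + 1)
  have hy : ∀ i, y i ∈ om K (Units.coeHom B)
      (Subgroup.closure {u : Bˣ | ∃ i, (u : B) = 1 + y i}) := fun i => by
    obtain ⟨u, hu⟩ := (hnil _ (NonUnitalAlgebra.subset_adjoin K ⟨i, rfl⟩)).isUnit_one_add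
    have := mem_om (K := K) (Units.coeHom B)
      (Subgroup.subset_closure (k := {u : Bˣ | ∃ i, (u : B) = 1 + y i}) ⟨i, hu⟩)
    simpa [hu] using this
  have key : ∀ m (w : Fin m → ι), (List.ofFn (fun i => y (w i))).prod ∈ om K (Units.coeHom B)
      (Subgroup.closure {u : Bˣ | ∃ i, (u : B) = 1 + y i}) ^ m := fun m => by
    induction m with
    | zero => intro w; simp [Submodule.one_eq_span]
    | succ m ih =>
      intro w
      rw [List.ofFn_succ, List.prod_cons, pow_succ']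
      exact Submodule.mul_mem_mul (hy _) (ih _)
  exact hw (by simpa [hn] using key _ w)

/-- Two quadratic elements with nilpotent product generate a finite group. -/
theorem pair_finite {p : ℕ} (hp : p.Prime) (hpB : (p : B) = 0) {a b : Bˣ}
    (hx : ((a : B) - 1) * ((a : B) - 1) = 0) (hy : ((b : B) - 1) * ((b : B) - 1) = 0)
    (hn : IsNilpotent (((b : B) - 1) * ((a : B) - 1))) :
    ((Subgroup.closure {a, b} : Subgroup Bˣ) : Set Bˣ).Finite := by
  obtain ⟨n, hn⟩ := hn
  generalize hxa : (a : B) - 1 = x at hx hn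
  generalize hyb : (b : B) - 1 = y at hy hn
  have hz : ∀ k, alt (k + (2 * n + 2)) x y = 0 ∧ alt (k + (2 * n + 2)) y x = 0 := fun k => by
    induction k with
    | zero =>
      rw [zero_add]
      refine ⟨?_, ?_⟩
      · show x * alt (2 * n + 1) y x = 0
        rw [alt_odd, ← swap_pow, hn]; simp
      · show y * alt (2 * n + 1) x y = 0
        rw [alt_odd, hn]; simp
    | succ k ih =>
      rw [Nat.add_right_comm]
      exact ⟨by rw [alt, ih.2, mul_zero], by rw [alt, ih.1, mul_zero]⟩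
  let Z : Submodule ℤ B := Submodule.span ℤ
    ((fun k => alt k x y) '' Set.Iio (2 * n + 2) ∪ (fun k => alt k y x) '' Set.Iio (2 * n + 2))
  have hZ : ∀ k, alt k x y ∈ Z ∧ alt k y x ∈ Z := fun k => by
    by_cases h : k < 2 * n + 2
    · exact ⟨Submodule.subset_span (Or.inl ⟨k, h, rfl⟩), Submodule.subset_span (Or.inr ⟨k, h, rfl⟩)⟩
    · obtain ⟨j, rfl⟩ := Nat.exists_eq_add_of_le' (not_lt.1 h)
      rw [(hz j).1, (hz j).2]; exact ⟨zero_mem _, zero_mem _⟩
  have hst : ∀ z ∈ Z, x * z ∈ Z ∧ y * z ∈ Z := fun z hz => by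
    induction hz using Submodule.span_induction with
    | mem z hz =>
      rcases hz with ⟨k, -, rfl⟩ | ⟨k, -, rfl⟩
      · refine ⟨?_, (hZ (k + 1)).2⟩
        cases k with
        | zero => exact (hZ 1).1
        | succ k => simp only [alt, ← mul_assoc, hx, zero_mul]; exact zero_mem _
      · refine ⟨(hZ (k + 1)).1, ?_⟩
        cases k with
        | zero => exact (hZ 1).2
        | succ k => simp only [alt, ← mul_assoc, hy, zero_mul]; exact zero_mem _
    | zero => simp
    | add a b _ _ ha hb => simp only [mul_add]; exact ⟨add_mem ha.1 hb.1, add_mem ha.2 hb.2⟩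
    | smul c a _ ha =>
      simp only [mul_smul_comm]; exact ⟨Z.smul_mem c ha.1, Z.smul_mem c ha.2⟩
  have hfg : Module.Finite ℤ Z :=
    Module.Finite.span_of_finite ℤ (((Set.finite_Iio _).image _).union ((Set.finite_Iio _).image _))
  have hfin : Finite Z := Module.finite_of_fg_torsion Z fun z =>
    ⟨⟨p, mem_nonZeroDivisors_of_ne_zero (by exact_mod_cast hp.ne_zero)⟩, Subtype.ext (by
      show (p : ℤ) • (z : B) = 0
      rw [zsmul_eq_mul, Int.cast_natCast, hpB, zero_mul])⟩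
  refine ((Set.toFinite (Z : Set B)).preimage Units.val_injective.injOn).subset fun u hu => ?_
  have hinv : ∀ (c : Bˣ) (h : ((c : B) - 1) * ((c : B) - 1) = 0),
      ((c⁻¹ : Bˣ) : B) = 1 - ((c : B) - 1) := fun c h => by
    have e1 : ((un _ h)⁻¹ : Bˣ) = (1 - ((c : B) - 1) : B) := rfl
    rwa [← eq_un h] at e1
  show (u : B) ∈ Z
  induction hu using Subgroup.closure_induction_left with
  | one => exact (hZ 0).1
  | mul_left c hc u _ ih =>
    rw [Units.val_mul, show (c : B) = 1 + ((c : B) - 1) by simp, add_mul, one_mul]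
    rcases hc with rfl | rfl
    · rw [hxa]; exact add_mem ih (hst _ ih).1
    · rw [hyb]; exact add_mem ih (hst _ ih).2
  | inv_mul_cancel c hc u _ ih =>
    rcases hc with rfl | rfl
    · rw [Units.val_mul, hinv c (hxa ▸ hx), sub_mul, one_mul, hxa]; exact sub_mem ih (hst _ ih).1
    · rw [Units.val_mul, hinv c (hyb ▸ hy), sub_mul, one_mul, hyb]; exact sub_mem ih (hst _ ih).2

theorem units_main {p : ℕ} (hp : Odd p) [CharP K p] (A : NonUnitalSubalgebra K B)
    (hnil : ∀ a ∈ A, IsNilpotent a) (L F : Subgroup Bˣ) (hL : ∀ u ∈ L, (u : B) - 1 ∈ A)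
    (hFL : F ≤ L) (hinf : (L : Set Bˣ).Infinite) (hF : (F : Set Bˣ).Finite)
    (hQ : QP K (Units.coeHom B) F) : {h | h ∈ L ∧ ∀ f ∈ F, h * f = f * h}.Infinite := by
  intro hC
  have := main K hp _ B L ((Units.coeHom B).comp L.subtype) (F.subgroupOf L)
    (fun a ha => hnil a (om_le (D := A.toSubmodule) ((Units.coeHom B).comp L.subtype)
      (fun l _ => hL l l.2) ha))
    ((Set.finite_singleton 1).subset fun h hh => Subtype.ext (Units.ext hh))
    ((hF.preimage Subtype.val_injective.injOn).subset fun h hh => hh)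
    (fun J hJ ⟨f, hf, h⟩ => by
      obtain ⟨g, hg, h⟩ := hQ J (fun f hf => hJ ⟨f, hFL hf⟩ hf) ⟨f, hf, h⟩
      exact ⟨⟨g, hFL hg⟩, hg, h⟩) rfl
    ((hC.preimage Subtype.val_injective.injOn).subset fun h hh =>
      ⟨h.2, fun f hf => congrArg Subtype.val (hh ⟨f, hFL hf⟩ hf)⟩)
  exact hinf ((this.image Subtype.val).subset fun h hh => ⟨⟨h, hh⟩, trivial, rfl⟩)

theorem QP_sq (F : Subgroup Bˣ) (hnil : ∀ f ∈ F, IsNilpotent ((f : B) - 1))
    (hF : ∀ f ∈ F, ∃ g ∈ F, (g : B) = 1 + ((f : B) - 1) ^ 2) : QP K (Units.coeHom B) F := by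
  rintro J - ⟨f, hf, hfJ⟩
  by_contra hc
  push Not at hc
  have key : ∀ k, ∃ g ∈ F, (g : B) - 1 = ((f : B) - 1) ^ 2 ^ k ∧ (g : B) - 1 ∉ J := fun k => by
    induction k with
    | zero => exact ⟨f, hf, by simp, hfJ⟩
    | succ k ih =>
      obtain ⟨g, hg, e, h⟩ := ih
      obtain ⟨g', hg', e'⟩ := hF g hg
      refine ⟨g', hg', by rw [e', e, ← pow_mul, ← pow_succ]; simp, ?_⟩
      rw [e', add_sub_cancel_left, sq]
      exact hc g hg h
  obtain ⟨n, hn⟩ := hnil f hf
  obtain ⟨g, -, e, h⟩ := key n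
  exact h (by rw [e, pow_eq_zero_of_le (Nat.lt_two_pow_self).le hn]; exact J.zero_mem)

end Pool.Agent.MP_c98bf6_al.H38
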