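import Pool.Agent.MP_c98bf6_al.H38.Pair

set_option autoImplicit false

namespace Pool.Agent.MP_c98bf6_al.H38

variable {K : Type} [Field K] {B : Type} [Ring B] [Algebra K B] {H : Type} [Group H]

theorem unip (ρ : H →* B) (D : Submodule K B) (hD : D * D ≤ D) {m : ℕ} (hm : D ^ (m + 1) = ⊥)
    (F : Subgroup H) (hF : (F : Set H).Finite) (hFD : ∀ f ∈ F, ρ f - 1 ∈ D)
    (hk : {h | ρ h = 1}.Finite) (hC : {h | ∀ f ∈ (F : Set H), h * f = f * h}.Finite) :
    {h | ρ h - 1 ∈ D ∧ ρ h⁻¹ - 1 ∈ D}.Finite := by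
  have hmul : ∀ a b : H, ρ a - 1 ∈ D → ρ b - 1 ∈ D → ρ (a * b) - 1 ∈ D := by
    intro a b ha hb
    have e : ρ (a * b) - 1 = (ρ a - 1) * (ρ b - 1) + (ρ a - 1) + (ρ b - 1) := by
      rw [map_mul]; noncomm_ring
    rw [e]; exact add_mem (add_mem (hD (Submodule.mul_mem_mul ha hb)) ha) hb
  let L : Subgroup H :=
    { carrier := {h | ρ h - 1 ∈ D ∧ ρ h⁻¹ - 1 ∈ D}
      one_mem' := by simp
      mul_mem' := fun ha hb => ⟨hmul _ _ ha.1 hb.1, by rw [mul_inv_rev]; exact hmul _ _ hb.2 ha.2⟩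
      inv_mem' := fun ha => ⟨ha.2, by simpa using ha.1⟩ }
  have h1 : om K ρ L ≤ D := om_le ρ fun l hl => hl.1
  refine (Y_finite ρ F hF hk hC m).subset fun h hh => ?_
  refine mem_Y (K := K) ρ (L := L) (fun f hf => ⟨hFD f hf, hFD _ (F.inv_mem hf)⟩) m 0 ?_ h
    (X_zero ρ hh)
  rw [zero_add]
  exact eq_bot_iff.2 ((pow_le_pow_left' h1 _).trans hm.le)

/-- `F` is quadratically generated modulo every ideal. -/
def QP (K : Type) [Field K] {B : Type} [Ring B] [Algebra K B] {H : Type} [Group H]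
    (ρ : H →* B) (F : Subgroup H) : Prop :=
  ∀ J : Submodule K B, (∀ f ∈ F, ∀ z ∈ J, ρ f * z ∈ J ∧ z * ρ f ∈ J) →
    (∃ f ∈ F, ρ f - 1 ∉ J) → ∃ g ∈ F, ρ g - 1 ∉ J ∧ (ρ g - 1) * (ρ g - 1) ∈ J

theorem QP_closure (ρ : H →* B) (s : Set H) (hs : ∀ g ∈ s, (ρ g - 1) * (ρ g - 1) = 0) :
    QP K ρ (Subgroup.closure s) := by
  rintro J hJ ⟨f, hf, hfJ⟩
  by_contra hc
  push Not at hc
  refine hfJ ?_
  clear hfJ
  induction hf using Subgroup.closure_induction with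
  | mem g hg =>
    by_contra h
    exact hc g (Subgroup.subset_closure hg) h (by rw [hs g hg]; exact J.zero_mem)
  | one => simp
  | mul a b ha hb iha ihb =>
    have e : ρ (a * b) - 1 = ρ a * (ρ b - 1) + (ρ a - 1) := by rw [map_mul]; noncomm_ring
    rw [e]; exact add_mem (hJ a ha _ ihb).1 iha
  | inv a ha iha =>
    have e : ρ a⁻¹ - 1 = -(ρ a⁻¹ * (ρ a - 1)) := by
      rw [mul_sub, ← map_mul, inv_mul_cancel, map_one]; noncomm_ring
    rw [e]; exact neg_mem (hJ _ (inv_mem ha) _ iha).1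

theorem conj_sub (ρ : H →* B) (h g : H) : ρ (h * g * h⁻¹) - 1 = ρ h * (ρ g - 1) * ρ h⁻¹ := by
  rw [mul_sub, sub_mul, mul_one, ← map_mul ρ h h⁻¹, mul_inv_cancel, map_one, map_mul, map_mul]

theorem conj_sq (ρ : H →* B) (h : H) {g : H} (hx : (ρ g - 1) * (ρ g - 1) = 0) :
    (ρ (h * g * h⁻¹) - 1) * (ρ (h * g * h⁻¹) - 1) = 0 := by
  have e2 : ρ h⁻¹ * ρ h = 1 := by rw [← map_mul]; simp
  rw [conj_sub]
  calc _ = ρ h * ((ρ g - 1) * (ρ h⁻¹ * ρ h) * (ρ g - 1)) * ρ h⁻¹ := by simp only [mul_assoc]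
    _ = 0 := by rw [e2, mul_one, hx]; simp

/-- The ideal generated by a normal finite subgroup. -/
theorem ideal_step (ρ : H →* B) (hnil : ∀ a ∈ om K ρ ⊤, IsNilpotent a) (E F N : Subgroup H)
    (hE : (E : Set H).Finite) (hF : (F : Set H).Finite) (hEN : E ≤ N) (hFN : F ≤ N)
    (hN : ∀ h ∈ N, ∀ e ∈ E, h * e * h⁻¹ ∈ E) (hk : {h | ρ h = 1}.Finite)
    (hC : {h | ∀ f ∈ (F : Set H), h * f = f * h}.Finite) :
    ∃ S J : Submodule K B, S = Submodule.span K (ρ '' N) ∧ S * S ≤ S ∧ S * J ≤ J ∧ J * S ≤ J ∧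
      (∀ e ∈ E, ρ e - 1 ∈ J) ∧ {h | h ∈ N ∧ ρ h - 1 ∈ J}.Finite := by
  have hom : ∀ L : Subgroup H, (L : Set H).Finite → ∃ n, om K ρ L ^ (n + 1) = ⊥ := fun L hL =>
    om_nilp ρ L hL fun a ha => hnil a (om_le ρ (fun l _ => mem_om ρ (Subgroup.mem_top l)) ha)
  obtain ⟨S, hS⟩ : ∃ S, S = Submodule.span K (ρ '' N) := ⟨_, rfl⟩
  have hm : ∀ h ∈ N, ρ h ∈ S := fun h hh => hS ▸ Submodule.subset_span ⟨h, hh, rfl⟩
  have h1 : (1 : B) ∈ S := by simpa using hm 1 N.one_mem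
  have hSS : S * S ≤ S := by
    conv_lhs => rw [hS, Submodule.span_mul_span]
    refine Submodule.span_le.2 ?_
    rintro _ ⟨_, ⟨a, ha, rfl⟩, _, ⟨b, hb, rfl⟩, rfl⟩
    simpa using hm _ (N.mul_mem ha hb)
  have hc : S * om K ρ E = om K ρ E * S := by
    apply le_antisymm
    · conv_lhs => rw [hS, om, Submodule.span_mul_span]
      refine Submodule.span_le.2 ?_
      rintro _ ⟨_, ⟨a, ha, rfl⟩, _, ⟨b, hb, rfl⟩, rfl⟩
      have e : ρ a * (ρ b - 1) = (ρ (a * b * a⁻¹) - 1) * ρ a := by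
        rw [conj_sub, mul_assoc, ← map_mul]; simp
      show ρ a * (ρ b - 1) ∈ _
      rw [e]; exact Submodule.mul_mem_mul (mem_om ρ (hN a ha b hb)) (hm a ha)
    · conv_lhs => rw [hS, om, Submodule.span_mul_span]
      refine Submodule.span_le.2 ?_
      rintro _ ⟨_, ⟨b, hb, rfl⟩, _, ⟨a, ha, rfl⟩, rfl⟩
      have e : (ρ b - 1) * ρ a = ρ a * (ρ (a⁻¹ * b * a⁻¹⁻¹) - 1) := by
        rw [conj_sub, ← mul_assoc, ← mul_assoc, ← map_mul]; simp
      show (ρ b - 1) * ρ a ∈ _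
      rw [e]; exact Submodule.mul_mem_mul (hm a ha) (mem_om ρ (hN _ (N.inv_mem ha) b hb))
  have hle : ∀ L : Subgroup H, L ≤ N → om K ρ L ≤ S := fun L hL =>
    om_le ρ fun l hl => sub_mem (hm l (hL hl)) h1
  obtain ⟨J, hJ⟩ : ∃ J, J = S * om K ρ E := ⟨_, rfl⟩
  have hSJ : S * J ≤ J := by rw [hJ, ← mul_assoc]; exact mul_le_mul_left hSS _
  have hJS : J * S ≤ J := by rw [hJ, hc, mul_assoc]; exact mul_le_mul_right hSS _
  have hJle : J ≤ S := by rw [hJ]; exact (mul_le_mul_right (hle E hEN) S).trans hSS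
  obtain ⟨b, hb⟩ := hom E hE
  obtain ⟨a, ha⟩ := hom F hF
  have hJb : J ^ (b + 1) = ⊥ := by
    rw [hJ, Commute.mul_pow hc, hb, Submodule.mul_bot]
  have hW := hle F hFN
  have hpow : ∀ k, (J ⊔ om K ρ F) ^ (k + 1) ≤ J ⊔ om K ρ F ^ (k + 1) := fun k => by
    induction k with
    | zero => simp
    | succ k ih =>
      rw [pow_succ, pow_succ' (om K ρ F) (k + 1)]
      rw [← pow_succ, pow_succ']
      refine (mul_le_mul_right ih _).trans ?_
      have hWk : om K ρ F ^ (k + 1) ≤ S := by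
        clear ih
        induction k with
        | zero => simpa using hW
        | succ k ih => rw [pow_succ]; exact (mul_le_mul' ih hW).trans hSS
      rw [Submodule.sup_mul, Submodule.mul_sup, Submodule.mul_sup]
      refine sup_le (sup_le ?_ ?_) (sup_le ?_ le_sup_right)
      · exact le_sup_of_le_left ((mul_le_mul_right hJle J).trans hJS)
      · exact le_sup_of_le_left ((mul_le_mul_right hWk J).trans hJS)
      · exact le_sup_of_le_left ((mul_le_mul_left hW J).trans hSJ)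
  have hDD : (J ⊔ om K ρ F) * (J ⊔ om K ρ F) ≤ J ⊔ om K ρ F := by
    have := hpow 1
    rw [pow_succ, pow_one, pow_succ, pow_one] at this
    exact this.trans (sup_le_sup_left (Submodule.mul_le.2 fun a ha b hb => om_mul ρ ha hb) _)
  have hDm : (J ⊔ om K ρ F) ^ ((a + 1) * b + a + 1) = ⊥ := by
    have h2 := hpow a
    rw [ha, sup_bot_eq] at h2
    rw [show (a + 1) * b + a + 1 = (a + 1) * (b + 1) by ring, pow_mul]
    exact eq_bot_iff.2 ((pow_le_pow_left' h2 _).trans hJb.le)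
  refine ⟨S, J, hS, hSS, hSJ, hJS, fun e he => ?_, ?_⟩
  · rw [hJ]; simpa using Submodule.mul_mem_mul h1 (mem_om (K := K) ρ he)
  · refine (unip ρ _ hDD hDm F hF (fun f hf => Submodule.mem_sup_right (mem_om ρ hf)) hk hC).subset ?_
    rintro h ⟨hh, hJ'⟩
    refine ⟨Submodule.mem_sup_left hJ', Submodule.mem_sup_left ?_⟩
    have e : ρ h⁻¹ - 1 = -(ρ h⁻¹ * (ρ h - 1)) := by
      rw [mul_sub, ← map_mul, inv_mul_cancel, map_one]; noncomm_ring
    rw [e]; exact neg_mem (hSJ (Submodule.mul_mem_mul (hm _ (N.inv_mem hh)) hJ'))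

/-- Passing to the quotient algebra. -/
theorem quot_step (ρ : H →* B) (hnil : ∀ a ∈ om K ρ ⊤, IsNilpotent a) (N : Subgroup H)
    (S J : Submodule K B) (hS : S = Submodule.span K (ρ '' N)) (hSS : S * S ≤ S)
    (hSJ : S * J ≤ J) (hJS : J * S ≤ J) :
    ∃ (B' : Type) (_ : Ring B') (_ : Algebra K B') (σ : N →* B'),
      (∀ a ∈ om K σ ⊤, IsNilpotent a) ∧ (∀ h : N, σ h = 1 ↔ ρ h - 1 ∈ J) ∧
      ∀ F : Subgroup H, F ≤ N → QP K ρ F → QP K σ (F.subgroupOf N) := by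
  have hm : ∀ h ∈ N, ρ h ∈ S := fun h hh => hS ▸ Submodule.subset_span ⟨h, hh, rfl⟩
  let A : Subalgebra K B := S.toSubalgebra (by simpa using hm 1 N.one_mem)
    fun a b ha hb => hSS (Submodule.mul_mem_mul ha hb)
  let I : Ideal A :=
    { carrier := {a | (a : B) ∈ J}
      add_mem' := fun ha hb => J.add_mem ha hb
      zero_mem' := J.zero_mem
      smul_mem' := fun c a ha => hSJ (Submodule.mul_mem_mul c.2 ha) }
  have : I.IsTwoSided := ⟨fun b ha => hJS (Submodule.mul_mem_mul ha b.2)⟩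
  let τ : N →* A :=
    { toFun := fun h => ⟨ρ h, hm h h.2⟩
      map_one' := Subtype.ext (map_one ρ)
      map_mul' := fun a b => Subtype.ext (map_mul ρ _ _) }
  let π : A →ₐ[K] A ⧸ I := Ideal.Quotient.mkₐ K I
  refine ⟨A ⧸ I, inferInstance, inferInstance, (π : A →* A ⧸ I).comp τ, fun a ha => ?_,
    fun h => ?_, fun F hF hQ J' hJ' hex => ?_⟩
  · obtain ⟨s, hs, rfl⟩ : ∃ s : A, (s : B) ∈ om K ρ ⊤ ∧ π s = a := by
      induction ha using Submodule.span_induction with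
      | mem z hz =>
        obtain ⟨h, -, rfl⟩ := hz
        exact ⟨τ h - 1, mem_om ρ (Subgroup.mem_top _), by simp⟩
      | zero => exact ⟨0, zero_mem _, map_zero π⟩
      | add a b _ _ ha hb =>
        obtain ⟨s, hs, rfl⟩ := ha
        obtain ⟨t, ht, rfl⟩ := hb
        exact ⟨s + t, add_mem hs ht, map_add π _ _⟩
      | smul c a _ ha =>
        obtain ⟨s, hs, rfl⟩ := ha
        exact ⟨c • s, Submodule.smul_mem _ c hs, map_smul π _ _⟩
    obtain ⟨n, hn⟩ := hnil _ hs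
    exact IsNilpotent.map ⟨n, Subtype.ext hn⟩ π
  · show π (τ h) = 1 ↔ _
    rw [← map_one π]
    exact Ideal.Quotient.eq
  · let J1 : Submodule K B := (J'.comap π.toLinearMap).map A.val.toLinearMap
    have hJ1 : ∀ s : A, (s : B) ∈ J1 ↔ π s ∈ J' := fun s =>
      ⟨by rintro ⟨t, ht, e⟩; rwa [← (Subtype.ext e : t = s)], fun h => ⟨s, h, rfl⟩⟩
    obtain ⟨g, hg, h1, h2⟩ := hQ J1 (by
      rintro f hf _ ⟨t, ht, rfl⟩
      have := hJ' ⟨f, hF hf⟩ hf _ ht
      exact ⟨(hJ1 (τ ⟨f, hF hf⟩ * t)).2 (by rw [map_mul]; exact this.1),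
        (hJ1 (t * τ ⟨f, hF hf⟩)).2 (by rw [map_mul]; exact this.2)⟩) (by
      obtain ⟨f, hf, h⟩ := hex
      exact ⟨f, hf, fun h' => h (by simpa using (hJ1 (τ f - 1)).1 h')⟩)
    refine ⟨⟨g, hF hg⟩, hg, fun h => h1 ((hJ1 (τ ⟨g, hF hg⟩ - 1)).2 (by simpa using h)), ?_⟩
    simpa using (hJ1 ((τ ⟨g, hF hg⟩ - 1) * (τ ⟨g, hF hg⟩ - 1))).1 h2

theorem main (K : Type) [Field K] {p : ℕ} (hp : Odd p) [CharP K p] (n : ℕ) :
    ∀ (B : Type) [Ring B] [Algebra K B] (H : Type) [Group H] (ρ : H →* B) (F : Subgroup H),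
      (∀ a ∈ om K ρ ⊤, IsNilpotent a) → {h | ρ h = 1}.Finite → (F : Set H).Finite → QP K ρ F →
      {f | f ∈ F ∧ ρ f ≠ 1}.ncard = n → {h | ∀ f ∈ (F : Set H), h * f = f * h}.Finite →
      (Set.univ : Set H).Finite := by
  induction n using Nat.strong_induction_on with
  | _ n ih =>
  intro B _ _ H _ ρ F hnil hk hF hQ hn hC
  have hpB : (p : B) = 0 := by rw [← map_natCast (algebraMap K B), CharP.cast_eq_zero, map_zero]
  have hY := Y_finite ρ F hF hk hC 1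
  have hcomm : ∀ h f : H, ρ h * ρ f = ρ f * ρ h → ρ (h * f * h⁻¹ * f⁻¹) = 1 := fun h f e => by
    rw [mul_assoc, map_mul, map_mul, e, ← map_mul, ← map_mul, ← map_one ρ]; congr 1; group
  by_cases h0 : ∀ f ∈ F, ρ f = 1
  · exact hY.subset fun h _ f hf => hcomm h f (by simp [h0 f hf])
  obtain ⟨g, hg, hg1, hg2⟩ := hQ ⊥ (by simp) (by simpa [sub_eq_zero] using h0)
  rw [Submodule.mem_bot] at hg1 hg2
  let E := Subgroup.closure {e | ∃ f ∈ F, e = f * g * f⁻¹}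
  have hgE : g ∈ E := Subgroup.subset_closure ⟨1, F.one_mem, by simp⟩
  have hEF : E ≤ F := (Subgroup.closure_le _).2 (by
    rintro _ ⟨f, hf, rfl⟩; exact F.mul_mem (F.mul_mem hf hg) (F.inv_mem hf))
  by_cases hE : ∀ f ∈ F, ∃ e ∈ E, ρ f = ρ e
  · obtain ⟨m, hm⟩ := om_nilp (K := K) ρ F hF
      fun a ha => hnil a (om_le ρ (fun l _ => mem_om ρ (Subgroup.mem_top l)) ha)
    have key := full_of_normal ρ (T := Subgroup.zpowers g ⊔ F ⊓ ρ.toHomUnits.ker)
      (sup_le ((Subgroup.zpowers_le).2 hg) inf_le_left) hm fun M hM hN f hf => by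
        obtain ⟨e, he, hfe⟩ := hE f hf
        have h1 : E ≤ M := (Subgroup.closure_le _).2 (by
          rintro _ ⟨f, hf, rfl⟩
          exact hN f hf g (hM (Subgroup.mem_sup_left (Subgroup.mem_zpowers g))))
        have h2 : e⁻¹ * f ∈ M := hM (Subgroup.mem_sup_right
          ⟨F.mul_mem (F.inv_mem (hEF he)) hf, Units.ext (by
            show ρ (e⁻¹ * f) = 1
            rw [map_mul, hfe, ← map_mul]; simp)⟩)
        simpa using M.mul_mem (h1 he) h2
    refine base hp hpB ρ hnil hk hg2 (hY.subset fun h hh f hf => hcomm h f ?_)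
    obtain ⟨t, ht, e⟩ := key f hf
    have hle : Subgroup.zpowers g ⊔ F ⊓ ρ.toHomUnits.ker ≤
        (Subgroup.centralizer {ρ.toHomUnits h}).comap ρ.toHomUnits := by
      refine sup_le ((Subgroup.zpowers_le).2 ?_) fun t ht => ?_
      · rw [Subgroup.mem_comap, Subgroup.mem_centralizer_singleton_iff, ← map_mul, ← map_mul,
          hh g rfl]
      · rw [Subgroup.mem_comap, (MonoidHom.mem_ker).1 ht.2]; exact one_mem _
    have := congrArg Units.val (Subgroup.mem_centralizer_singleton_iff.1 (hle ht))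
    rw [e]; exact this.symm
  have hsub : {f | f ∈ F ∧ ρ f ≠ 1}.Finite := hF.subset fun f hf => hf.1
  have hEfin : (E : Set H).Finite := hF.subset hEF
  refine ih _ ?_ B H ρ E hnil hk hEfin (QP_closure ρ _ ?_) rfl ?_
  · rw [← hn]
    push Not at hE
    obtain ⟨f, hf, hf'⟩ := hE
    refine Set.ncard_lt_ncard ⟨fun e he => ⟨hEF he.1, he.2⟩, fun h => ?_⟩ hsub
    exact hf' f (h ⟨hf, by simpa using hf' 1 E.one_mem⟩).1 rfl
  · rintro _ ⟨f, -, rfl⟩; exact conj_sq ρ f hg2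
  have hconj : ∀ f ∈ F, ∀ e ∈ E, f * e * f⁻¹ ∈ E := fun f hf e he => by
    induction he using Subgroup.closure_induction with
    | mem e he =>
      obtain ⟨f', hf', rfl⟩ := he
      exact Subgroup.subset_closure ⟨f * f', F.mul_mem hf hf', by group⟩
    | one => simp
    | mul a b _ _ ha hb => convert E.mul_mem ha hb using 1; group
    | inv a _ ha => convert E.inv_mem ha using 1; group
  have hFN : F ≤ Subgroup.normalizer (E : Set H) := fun f hf =>
    Subgroup.mem_normalizer_iff.2 fun e => ⟨hconj f hf e, fun h => by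
      simpa [mul_assoc] using hconj _ (F.inv_mem hf) _ h⟩
  obtain ⟨S, J, hS, hSS, hSJ, hJS, hEJ, hV⟩ := ideal_step ρ hnil E F _ hEfin hF (hEF.trans hFN) hFN
    (fun h hh e he => (Subgroup.mem_normalizer_iff.1 hh e).1 he) hk hC
  obtain ⟨B', _, _, σ, hσ1, hσ2, hσ3⟩ := quot_step ρ hnil _ S J hS hSS hSJ hJS
  have hfin := ih _ ?_ B' _ σ (F.subgroupOf _) hσ1
    ((hV.preimage Subtype.val_injective.injOn).subset fun h hh => ⟨h.2, (hσ2 h).1 hh⟩)
    ((hF.preimage Subtype.val_injective.injOn).subset fun h hh => hh) (hσ3 F hFN hQ) rfl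
    ((hC.preimage Subtype.val_injective.injOn).subset fun h hh f hf =>
      congrArg Subtype.val (hh ⟨f, hFN hf⟩ hf))
  · refine (hfin.image Subtype.val).subset fun h hh => ⟨⟨h, ?_⟩, trivial, rfl⟩
    have hc : ∀ e ∈ E, h * e * h⁻¹ = e := fun e he => by rw [hh e he]; simp
    refine Subgroup.mem_normalizer_iff.2 fun e => ⟨fun he => by rwa [hc e he], fun he => ?_⟩
    have := hc _ he
    rw [mul_left_inj, mul_assoc, mul_right_inj, ← mul_assoc] at this
    exact this ▸ he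
  · rw [← hn, ← Set.ncard_image_of_injective _ Subtype.val_injective]
    refine Set.ncard_lt_ncard ⟨?_, fun h => ?_⟩ hsub
    · rintro _ ⟨f, hf, rfl⟩
      exact ⟨hf.1, fun e => hf.2 ((hσ2 f).2 (by simp [e]))⟩
    · obtain ⟨f, hf, e⟩ := h ⟨hg, fun e => hg1 (by simp [e])⟩
      exact hf.2 ((hσ2 f).2 (by rw [e]; exact hEJ _ hgE))

end Pool.Agent.MP_c98bf6_al.H38
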