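import Pool.Agent.MP_c98bf6_al.H38.Filt

set_option autoImplicit false

namespace Pool.Agent.MP_c98bf6_al.H38

variable {K : Type} [Field K] {B : Type} [Ring B] [Algebra K B] {H : Type} [Group H]

/-- Alternating words. -/
def alt {B : Type} [Ring B] : ℕ → B → B → B
  | 0, _, _ => 1
  | k + 1, x, y => x * alt k y x

theorem alt_odd (x y : B) (c : ℕ) : alt (2 * c + 1) x y = x * (y * x) ^ c := by
  induction c with
  | zero => simp [alt]
  | succ c ih =>
    show x * (y * alt (2 * c + 1) x y) = _
    rw [ih, pow_succ']; noncomm_ring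

theorem swap_pow (x y : B) (c : ℕ) : (y * x) ^ c * y = y * (x * y) ^ c := by
  induction c with
  | zero => simp
  | succ c ih => rw [pow_succ', mul_assoc, ih, pow_succ']; noncomm_ring

theorem span_pow_le {x y : B} (hx : x * x = 0) (hy : y * y = 0) (k : ℕ) :
    Submodule.span K {x, y} ^ k ≤ Submodule.span K {alt k x y, alt k y x} := by
  induction k with
  | zero => simp [alt, Submodule.one_eq_span]
  | succ k ih =>
    rw [pow_succ']
    refine le_trans (Submodule.mul_le.2 fun a ha b hb => Submodule.mul_mem_mul ha (ih hb)) ?_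
    rw [Submodule.span_mul_span, Submodule.span_le]
    have h1 : alt (k + 1) x y ∈ Submodule.span K {alt (k + 1) x y, alt (k + 1) y x} :=
      Submodule.subset_span (by simp)
    have h2 : alt (k + 1) y x ∈ Submodule.span K {alt (k + 1) x y, alt (k + 1) y x} :=
      Submodule.subset_span (by simp)
    rintro _ ⟨a, ha, b, hb, rfl⟩
    rcases ha with rfl | rfl <;> rcases hb with rfl | rfl
    · cases k with
      | zero => exact h1
      | succ k => simp only [alt, ← mul_assoc, hx, zero_mul]; exact zero_mem _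
    · exact h1
    · exact h2
    · cases k with
      | zero => exact h2
      | succ k => simp only [alt, ← mul_assoc, hy, zero_mul]; exact zero_mem _

theorem span_pow_bot {x y : B} (hx : x * x = 0) (hy : y * y = 0) {c : ℕ}
    (hc : x * (y * x) ^ c = 0) : Submodule.span K {x, y} ^ (2 * c + 2) = ⊥ := by
  refine eq_bot_iff.2 ((span_pow_le hx hy _).trans (Submodule.span_le.2 ?_))
  have h1 : alt (2 * c + 2) x y = 0 := by
    show x * alt (2 * c + 1) y x = 0
    rw [alt_odd, ← swap_pow, ← mul_assoc, hc, zero_mul]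
  have h2 : alt (2 * c + 2) y x = 0 := by
    show y * alt (2 * c + 1) x y = 0
    rw [alt_odd, hc, mul_zero]
  simp [h1, h2]

/-- The non-unital algebra generated by a subspace. -/
def gen (W : Submodule K B) : Submodule K B := ⨆ k, W ^ (k + 1)

theorem gen_pow_le (W : Submodule K B) (n : ℕ) : gen W ^ (n + 1) ≤ ⨆ k, W ^ (k + (n + 1)) := by
  induction n with
  | zero => simp [gen]
  | succ n ih =>
    rw [pow_succ]
    refine le_trans (Submodule.mul_le.2 fun a ha b hb => Submodule.mul_mem_mul (ih ha) hb) ?_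
    rw [gen, Submodule.iSup_mul]
    refine iSup_le fun i => ?_
    rw [Submodule.mul_iSup]
    refine iSup_le fun j => le_iSup_of_le (i + j) (le_of_eq ?_)
    rw [← pow_add]; congr 1; ring

theorem gen_mul (W : Submodule K B) {a b : B} (ha : a ∈ gen W) (hb : b ∈ gen W) :
    a * b ∈ gen W := by
  have h := gen_pow_le W 1
  rw [pow_succ, pow_one] at h
  refine (iSup_le fun k => ?_ : _ ≤ gen W) (h (Submodule.mul_mem_mul ha hb))
  exact le_iSup_of_le (k + 1) le_rfl

theorem gen_bot (W : Submodule K B) {n : ℕ} (h : W ^ (n + 1) = ⊥) : gen W ^ (n + 1) = ⊥ :=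
  eq_bot_iff.2 ((gen_pow_le W n).trans (iSup_le fun k => by rw [pow_add, h]; simp))

theorem sub_gen (W : Submodule K B) {a : B} (ha : a ∈ W) : a ∈ gen W :=
  (le_iSup_of_le 0 (by simp) : W ≤ gen W) ha

/-- The additive group of the root elements. -/
def root (x y : B) : AddSubgroup B := AddSubgroup.closure {z | ∃ k : ℕ, z = x * (y * x) ^ k}

theorem root_mem (x y : B) (k : ℕ) : x * (y * x) ^ k ∈ root x y :=
  AddSubgroup.subset_closure ⟨k, rfl⟩

theorem root_zero {x y : B} (hx : x * x = 0) {a b : B} (ha : a ∈ root x y) (hb : b ∈ root x y) :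
    a * b = 0 := by
  have h1 : a * x = 0 := by
    induction ha using AddSubgroup.closure_induction with
    | mem z hz =>
      obtain ⟨k, rfl⟩ := hz
      rw [← swap_pow, mul_assoc, hx, mul_zero]
    | zero => simp
    | add a c _ _ ha hc => rw [add_mul, ha, hc, add_zero]
    | neg a _ ha => rw [neg_mul, ha, neg_zero]
  induction hb using AddSubgroup.closure_induction with
  | mem z hz =>
    obtain ⟨k, rfl⟩ := hz
    rw [← mul_assoc, h1, zero_mul]
  | zero => simp
  | add a c _ _ ha hc => rw [mul_add, ha, hc, add_zero]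
  | neg a _ ha => rw [mul_neg, ha, neg_zero]

/-- The unit `1 + a` for `a` of square zero. -/
def un (a : B) (h : a * a = 0) : Bˣ :=
  ⟨1 + a, 1 - a, by rw [mul_sub, add_mul, add_mul, h]; simp,
    by rw [sub_mul, mul_add, mul_add a, h]; simp⟩

theorem one_add_pow_sq {a : B} (h : a * a = 0) (k : ℕ) : (1 + a) ^ k = 1 + (k : B) * a := by
  induction k with
  | zero => simp
  | succ k ih =>
    have e : (1 + (k : B) * a) * (1 + a) = 1 + ((k : B) + 1) * a + k * (a * a) := by noncomm_ring
    rw [pow_succ, ih, Nat.cast_succ, e, h]; simp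

theorem torus {x a b ν : B} (hax : a * x = 0) (hxa : x * a = 0) (haa : a * a = 0)
    (h1 : ν * (1 + b * a) = 1) (h2 : (1 + b * a) * ν = 1) (hbb : b * b = 0) :
    (1 + -(ν * b)) * (1 + a) * (1 + b) * (1 + x) =
      (1 + (1 + a * b) * x * (1 + b * a)) * ((1 + -(ν * b)) * (1 + a) * (1 + b)) := by
  have hν : ν = 1 - ν * b * a := by rw [eq_sub_iff_add_eq, ← h1]; noncomm_ring
  have hνx : ν * x = x := by rw [hν, sub_mul, mul_assoc, hax]; simp
  have hv : (1 + -(ν * b)) * (1 + a) * (1 + b) = ν + a + a * b := by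
    have e : (1 + -(ν * b)) * (1 + a) * (1 + b) = (1 - ν * b * a) + a + a * b
        + (b - ν * (1 + b * a) * b) - ν * (b * b) := by noncomm_ring
    rw [e, ← hν, h1, hbb]; simp
  rw [hv]
  have e1 : (ν + a + a * b) * (1 + x) = ν + a + a * b + (ν * x + a * x + a * b * x) := by
    noncomm_ring
  have e2 : (1 + (1 + a * b) * x * (1 + b * a)) * (ν + a + a * b) = ν + a + a * b +
      (1 + a * b) * (x * ((1 + b * a) * ν) + (x * a + x * b * (a * a)) * (1 + b)) := by
    noncomm_ring
  rw [e1, e2, hνx, hax, h2, hxa, haa]; noncomm_ring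

theorem root_sub {p : ℕ} (hp : Odd p) (hpB : (p : B) = 0) {x y : B} (hx : x * x = 0)
    (hy : y * y = 0) {n : ℕ} (hn : (y * x) ^ n = 0) (M : Subgroup Bˣ)
    (hM : ∀ u : Bˣ, (u : B) - 1 ∈ root x y ∨ (u : B) - 1 ∈ root y x → ∀ m ∈ M, u * m * u⁻¹ ∈ M)
    (h0 : un x hx ∈ M) {a : B} (ha : a ∈ root x y) : un a (root_zero hx ha ha) ∈ M := by
  have hz := fun i j => root_zero hx (root_mem x y i) (root_mem x y j)
  have key : ∀ j i, n ≤ i + j → un (x * (y * x) ^ i) (hz i i) ∈ M := by
    intro j
    induction j with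
    | zero =>
      intro i hi
      have : un (x * (y * x) ^ i) (hz i i) = 1 := by
        ext; simp [un, pow_eq_zero_of_le (by simpa using hi) hn]
      rw [this]; exact M.one_mem
    | succ j ih =>
      intro i hi
      cases i with
      | zero => simpa using h0
      | succ i =>
        have hba : y * (x * (y * x) ^ i) = (y * x) ^ (i + 1) := by rw [← mul_assoc, pow_succ']
        have ht : (-(y * x) ^ (i + 1)) ^ n = 0 := by
          rw [neg_pow, ← pow_mul, mul_comm (i + 1), pow_mul, hn]; simp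
        obtain ⟨ν, hν⟩ : ∃ ν, ν = ∑ l ∈ Finset.range n, (-(y * x) ^ (i + 1)) ^ l := ⟨_, rfl⟩
        have h1 : ν * (1 + y * (x * (y * x) ^ i)) = 1 := by
          have := geom_sum_mul_neg (-(y * x) ^ (i + 1)) n
          rwa [ht, sub_zero, sub_neg_eq_add, ← hν, ← hba] at this
        have h2 : (1 + y * (x * (y * x) ^ i)) * ν = 1 := by
          have := mul_neg_geom_sum (-(y * x) ^ (i + 1)) n
          rwa [ht, sub_zero, sub_neg_eq_add, ← hν, ← hba] at this
        have hb : -(ν * y) ∈ root y x := by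
          refine neg_mem ?_
          rw [hν, Finset.sum_mul]
          refine sum_mem fun l _ => ?_
          rw [neg_pow, ← pow_mul, mul_assoc, swap_pow]
          rcases neg_one_pow_eq_or B l with h | h <;> rw [h]
          · rw [one_mul]; exact root_mem y x _
          · rw [neg_one_mul]; exact neg_mem (root_mem y x _)
        have hy0 : y ∈ root y x := by simpa using root_mem y x 0
        have hx0 : x ∈ root x y := by simpa using root_mem x y 0
        have hm := hM (un _ (root_zero hy hb hb)) (Or.inr (by simpa [un] using hb)) _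
          (hM (un _ (hz i i)) (Or.inl (by simpa [un] using root_mem x y i)) _
            (hM (un y hy) (Or.inr (by simpa [un] using hy0)) _ h0))
        have hi2 := ih (i + 1 + (i + 1)) (by omega)
        have e : un _ (root_zero hy hb hb) * (un _ (hz i i) * (un y hy * un x hx * (un y hy)⁻¹) *
            (un _ (hz i i))⁻¹) * (un _ (root_zero hy hb hb))⁻¹ =
            un _ (hz (i + 1) (i + 1)) ^ 2 * un _ (hz (i + 1 + (i + 1)) (i + 1 + (i + 1))) *
              un x hx := by
          have e0 : ∀ u v w m : Bˣ, u * (v * (w * m * w⁻¹) * v⁻¹) * u⁻¹ =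
              (u * v * w * m) * (u * v * w)⁻¹ := fun u v w m => by group
          rw [e0, mul_inv_eq_iff_eq_mul]
          ext
          simp only [un, Units.val_mul, Units.val_pow_eq_pow_val]
          rw [torus (root_zero hx (root_mem x y i) hx0) (root_zero hx hx0 (root_mem x y i))
            (hz i i) h1 h2 hy]
          congr 1
          have f1 := hz (i + 1) (i + 1)
          have f2 := hz (i + 1) (i + 1 + (i + 1))
          have f3 := root_zero hx (root_mem x y (i + 1)) hx0
          have f4 := root_zero hx (root_mem x y (i + 1 + (i + 1))) hx0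
          have g1 : x * (y * x) ^ i * y * x = x * (y * x) ^ (i + 1) := by
            rw [pow_succ]; noncomm_ring
          have g2 : (1 + x * (y * x) ^ i * y) * x * (1 + y * (x * (y * x) ^ i)) =
              x + x * (y * x) ^ (i + 1) + x * (y * x) ^ (i + 1) + x * (y * x) ^ (i + 1 + (i + 1)) := by
            rw [hba, add_mul, one_mul, g1, pow_add (y * x) (i + 1)]; noncomm_ring
          rw [g2]
          generalize x * (y * x) ^ (i + 1) = c at f1 f2 f3 ⊢
          generalize x * (y * x) ^ (i + 1 + (i + 1)) = d at f2 f4 ⊢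
          have g3 : (1 + c) ^ 2 * (1 + d) * (1 + x) = 1 + (x + c + c + d) + (c * x + c * x + d * x)
            + (c * c * (1 + d) + (c * d + c * d)) * (1 + x) := by noncomm_ring
          rw [g3, f1, f2, f3, f4]; simp
        rw [e] at hm
        have h3 := M.mul_mem (M.mul_mem hm (M.inv_mem h0)) (M.inv_mem hi2)
        simp only [mul_inv_cancel_right] at h3
        obtain ⟨q, hq⟩ := hp
        have h4 : un _ (hz (i + 1) (i + 1)) ^ p = 1 := by
          ext
          simp only [un, Units.val_pow_eq_pow_val]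
          rw [one_add_pow_sq (hz _ _), hpB]; simp
        have h5 := M.pow_mem h3 (q + 1)
        rwa [← pow_mul, show 2 * (q + 1) = p + 1 by omega, pow_succ, h4, one_mul] at h5
  induction ha using AddSubgroup.closure_induction with
  | mem z hz =>
    obtain ⟨k, rfl⟩ := hz
    exact key n k (by omega)
  | zero =>
    have : un (0 : B) (by simp) = 1 := by ext; simp [un]
    exact this ▸ M.one_mem
  | add a c ha hc iha ihc =>
    have : un (a + c) (root_zero hx (add_mem ha hc) (add_mem ha hc)) =
        un a (root_zero hx ha ha) * un c (root_zero hx hc hc) := by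
      ext
      simp only [un, Units.val_mul]
      rw [add_mul, mul_add, mul_add a, root_zero hx ha hc]; noncomm_ring
    exact this ▸ M.mul_mem iha ihc
  | neg a ha iha =>
    have : un (-a) (root_zero hx (neg_mem ha) (neg_mem ha)) = (un a (root_zero hx ha ha))⁻¹ := by
      ext; simp [un, sub_eq_add_neg]
    exact this ▸ M.inv_mem iha

/-- The group generated by all root elements. -/
def iw (x y : B) : Subgroup Bˣ :=
  Subgroup.closure {u | (u : B) - 1 ∈ root x y ∨ (u : B) - 1 ∈ root y x}

theorem root_gen {x y : B} {W : Submodule K B} (hx : x ∈ W) (hy : y ∈ W) {a : B}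
    (ha : a ∈ root x y) : a ∈ gen W := by
  refine (AddSubgroup.closure_le (gen W).toAddSubgroup).2 ?_ ha
  rintro _ ⟨k, rfl⟩
  show x * (y * x) ^ k ∈ gen W
  induction k with
  | zero => simpa using sub_gen W hx
  | succ k ih =>
    rw [pow_succ, ← mul_assoc]
    exact gen_mul W ih (gen_mul W (sub_gen W hy) (sub_gen W hx))

theorem eq_un {u : Bˣ} (h : ((u : B) - 1) * ((u : B) - 1) = 0) : u = un _ h := by
  ext; simp [un]

theorem iw_gen {x y : B} (hx : x * x = 0) (hy : y * y = 0) {u : Bˣ} (hu : u ∈ iw x y) :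
    (u : B) - 1 ∈ gen (Submodule.span K {x, y}) := by
  have hx' : x ∈ Submodule.span K {x, y} := Submodule.subset_span (by simp)
  have hy' : y ∈ Submodule.span K {x, y} := Submodule.subset_span (by simp)
  have hmul : ∀ a b : B, a - 1 ∈ gen (Submodule.span K {x, y}) →
      b - 1 ∈ gen (Submodule.span K {x, y}) → a * b - 1 ∈ gen (Submodule.span K {x, y}) := by
    intro a b ha hb
    have e : a * b - 1 = (a - 1) * (b - 1) + (a - 1) + (b - 1) := by noncomm_ring
    rw [e]; exact add_mem (add_mem (gen_mul _ ha hb) ha) hb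
  suffices h : (u : B) - 1 ∈ gen (Submodule.span K {x, y}) ∧
      ((u⁻¹ : Bˣ) : B) - 1 ∈ gen (Submodule.span K {x, y}) from h.1
  induction hu using Subgroup.closure_induction with
  | mem u hu =>
    have h1 : ((u : B) - 1) * ((u : B) - 1) = 0 :=
      hu.elim (fun h => root_zero hx h h) (fun h => root_zero hy h h)
    have h2 : (u : B) - 1 ∈ gen (Submodule.span K {x, y}) :=
      hu.elim (root_gen hx' hy') (root_gen hy' hx')
    refine ⟨h2, ?_⟩
    have e : ((u⁻¹ : Bˣ) : B) - 1 = -((u : B) - 1) := by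
      have e1 : ((un _ h1)⁻¹ : Bˣ) = (1 - ((u : B) - 1) : B) := rfl
      rw [← eq_un h1] at e1
      rw [e1]; abel
    rw [e]; exact neg_mem h2
  | one => simp
  | mul u v _ _ hu hv =>
    exact ⟨hmul _ _ hu.1 hv.1, by rw [mul_inv_rev]; exact hmul _ _ hv.2 hu.2⟩
  | inv u _ hu => exact ⟨hu.2, by simpa using hu.1⟩

theorem iw_bot {x y : B} (hx : x * x = 0) (hy : y * y = 0) {c : ℕ} (hc : x * (y * x) ^ c = 0) :
    om K (Units.coeHom B) (iw x y) ^ (2 * c + 1 + 1) = ⊥ := by
  refine eq_bot_iff.2 (le_trans ?_ (gen_bot _ (span_pow_bot (K := K) hx hy hc)).le)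
  exact pow_le_pow_left' (om_le _ fun l hl => iw_gen hx hy hl) _

theorem map_le_iw (ρ : H →* B) {g g' : H} :
    (Subgroup.closure {g, g'}).map ρ.toHomUnits ≤ iw (ρ g - 1) (ρ g' - 1) := by
  rw [MonoidHom.map_closure]
  refine Subgroup.closure_mono ?_
  rintro _ ⟨a, rfl | rfl, rfl⟩
  · left; simpa using root_mem (ρ a - 1) (ρ g' - 1) 0
  · right; simpa using root_mem (ρ a - 1) (ρ g - 1) 0

theorem pair_bot (ρ : H →* B) {g g' : H} (hx : (ρ g - 1) * (ρ g - 1) = 0)
    (hy : (ρ g' - 1) * (ρ g' - 1) = 0) {c : ℕ}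
    (hc : (ρ g - 1) * ((ρ g' - 1) * (ρ g - 1)) ^ c = 0) :
    om K ρ (Subgroup.closure {g, g'}) ^ (2 * c + 1 + 1) = ⊥ := by
  refine eq_bot_iff.2 (le_trans ?_ (iw_bot (K := K) hx hy hc).le)
  have : om K ρ (Subgroup.closure {g, g'}) ≤ om K (Units.coeHom B) (iw (ρ g - 1) (ρ g' - 1)) :=
    om_le ρ fun l hl => mem_om (Units.coeHom B) (map_le_iw ρ ⟨l, hl, rfl⟩)
  exact pow_le_pow_left' this _

/-- For odd `p` the group generated by two quadratic elements contains all root elements. -/
theorem root_in (K : Type) [Field K] [Algebra K B] {p : ℕ} (hp : Odd p) (hpB : (p : B) = 0)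
    (ρ : H →* B) {g g' : H}
    (hx : (ρ g - 1) * (ρ g - 1) = 0) (hy : (ρ g' - 1) * (ρ g' - 1) = 0) {n : ℕ}
    (hn : ((ρ g' - 1) * (ρ g - 1)) ^ n = 0) (i : ℕ) :
    ∃ u ∈ Subgroup.closure {g, g'}, ρ u = 1 + (ρ g - 1) * ((ρ g' - 1) * (ρ g - 1)) ^ i := by
  have hc : (ρ g - 1) * ((ρ g' - 1) * (ρ g - 1)) ^ n = 0 := by rw [hn, mul_zero]
  have hn' : ((ρ g - 1) * (ρ g' - 1)) ^ (n + 1) = 0 := by
    rw [pow_succ', mul_assoc, ← swap_pow, hn]; simp
  have hi := root_mem (ρ g - 1) (ρ g' - 1) i
  obtain ⟨t, ⟨u, hu, rfl⟩, ht⟩ := full_of_normal (K := K) (Units.coeHom B) (map_le_iw ρ)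
    (iw_bot hx hy hc) (fun M hM hN => by
      refine (Subgroup.closure_le M).2 ?_
      have hN' : ∀ u : Bˣ, (u : B) - 1 ∈ root (ρ g - 1) (ρ g' - 1) ∨
          (u : B) - 1 ∈ root (ρ g' - 1) (ρ g - 1) → ∀ m ∈ M, u * m * u⁻¹ ∈ M :=
        fun u hu => hN u (Subgroup.subset_closure hu)
      rintro u (hu | hu)
      · rw [eq_un (root_zero hx hu hu)]
        exact root_sub hp hpB hx hy hn M hN'
          (hM ⟨g, Subgroup.subset_closure (by simp), by ext; simp [un]⟩) hu
      · rw [eq_un (root_zero hy hu hu)]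
        exact root_sub hp hpB hy hx hn' M (fun u hu => hN' u hu.symm)
          (hM ⟨g', Subgroup.subset_closure (by simp), by ext; simp [un]⟩) hu)
    (un _ (root_zero hx hi hi)) (Subgroup.subset_closure (Or.inl (by simpa [un] using hi)))
  exact ⟨u, hu, by simpa [un] using ht.symm⟩

/-- A quadratic element with finite centralizer forces the group to be finite. -/
theorem base {p : ℕ} (hp : Odd p) (hpB : (p : B) = 0) (ρ : H →* B)
    (hnil : ∀ a ∈ om K ρ ⊤, IsNilpotent a) (hk : {h | ρ h = 1}.Finite) {g : H}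
    (hx : (ρ g - 1) * (ρ g - 1) = 0) (hC : {h | ∀ f ∈ ({g} : Set H), h * f = f * h}.Finite) :
    (Set.univ : Set H).Finite := by
  have hY := Y_finite ρ {g} (Set.finite_singleton g) hk hC
  obtain ⟨c, hc⟩ : ∃ c, c = ((hY 1).image ρ).toFinset.card := ⟨_, rfl⟩
  refine (hY (2 * c + 1 + 1)).subset fun h _ => ?_
  have hy : (ρ (h * g * h⁻¹) - 1) * (ρ (h * g * h⁻¹) - 1) = 0 := by
    have e : ρ (h * g * h⁻¹) - 1 = ρ h * (ρ g - 1) * ρ h⁻¹ := by
      rw [mul_sub, sub_mul, mul_one, ← map_mul ρ h h⁻¹, mul_inv_cancel, map_one, map_mul, map_mul]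
    have e2 : ρ h⁻¹ * ρ h = 1 := by rw [← map_mul]; simp
    rw [e]
    calc _ = ρ h * ((ρ g - 1) * (ρ h⁻¹ * ρ h) * (ρ g - 1)) * ρ h⁻¹ := by simp only [mul_assoc]
      _ = 0 := by rw [e2, mul_one, hx]; simp
  obtain ⟨n, hn⟩ := hnil _ (om_mul ρ (mem_om ρ (Subgroup.mem_top (h * g * h⁻¹)))
    (mem_om ρ (Subgroup.mem_top g)))
  have hr := root_in K hp hpB ρ hx hy hn
  have hz := fun i j => root_zero hx (root_mem _ (ρ (h * g * h⁻¹) - 1) i) (root_mem _ _ j)
  generalize hs : (ρ (h * g * h⁻¹) - 1) * (ρ g - 1) = s at hn hr hz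
  have h0 : (ρ g - 1) * s ^ c = 0 := by
    by_contra h0
    have hinj : ∀ i j, i < j → j ≤ c → 1 + (ρ g - 1) * s ^ i ≠ 1 + (ρ g - 1) * s ^ j := by
      intro i j hij hj e
      obtain ⟨d, rfl⟩ := Nat.exists_eq_add_of_lt hij
      have e1 : ∀ m, (ρ g - 1) * s ^ i = (ρ g - 1) * s ^ i * s ^ (m * (d + 1)) := fun m => by
        induction m with
        | zero => simp
        | succ m ih =>
          rw [add_mul, one_mul, add_comm (m * _), pow_add, ← mul_assoc, mul_assoc _ (s ^ i),
            ← pow_add, ← add_assoc, ← add_left_cancel e]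
          exact ih
      have e2 : (ρ g - 1) * s ^ i = 0 := by rw [e1 n, pow_mul, hn]; simp
      apply h0
      rw [show c = i + (c - i) by omega, pow_add, ← mul_assoc, e2, zero_mul]
    have hle := Finset.card_le_card_of_injOn (s := Finset.range (c + 1))
      (t := ((hY 1).image ρ).toFinset) (fun i => 1 + (ρ g - 1) * s ^ i) (fun i _ => by
        obtain ⟨u, -, hu⟩ := hr i
        simp only [Finset.mem_coe, Set.Finite.mem_toFinset]
        refine ⟨u, ?_, hu⟩
        rintro f rfl
        show ρ (u * f * u⁻¹ * f⁻¹) = 1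
        have e : ρ (u * f) = ρ (f * u) := by
          have a1 := hz i 0
          have a2 := hz 0 i
          rw [pow_zero, mul_one] at a1 a2
          rw [map_mul, map_mul, hu, show ρ f = 1 + (ρ f - 1) by simp]
          generalize ρ f - 1 = x at a1 a2
          simp only [add_sub_cancel_left, mul_add, add_mul, a1, a2]; noncomm_ring
        rw [mul_assoc, map_mul, e, ← map_mul, ← map_one ρ]; congr 1; group)
      (fun i hi j hj e => by
        have hi' : i ≤ c := by simpa [Nat.lt_succ_iff] using hi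
        have hj' : j ≤ c := by simpa [Nat.lt_succ_iff] using hj
        rcases lt_trichotomy i j with h | h | h
        · exact absurd e (hinj i j h hj')
        · exact h
        · exact absurd e.symm (hinj j i h hi'))
    rw [Finset.card_range, ← hc] at hle
    omega
  rintro f rfl
  refine mem_Y (K := K) ρ (L := Subgroup.closure {f, h * f * h⁻¹}) ?_ _ 0 ?_ _ (X_zero ρ ?_)
  · rintro _ rfl; exact Subgroup.subset_closure (by simp)
  · rw [zero_add]; exact pair_bot ρ hx hy (hs ▸ h0)
  · exact mul_mem (Subgroup.subset_closure (by simp)) (inv_mem (Subgroup.subset_closure (by simp)))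

end Pool.Agent.MP_c98bf6_al.H38
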